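import Pool.Agent.Y266.Haf.Brid

set_option autoImplicit false

open Pool.Agent.H32R2.KH (khaf Psi J)

/-- For all `1 ≤ k ≤ n` the minimum `μ_{k,n}` of the `k`-hafnian over the perfect matching polytope
of the complete graph on `2 n` vertices satisfies `μ_{k,n} ≥ (3 e)^{-k} (n choose k)`, and the right
side is at least `(3 e)^{-k}` times the value at `J`; so `μ_{k,n}` and the value at `J` agree up to
the factor `(3 e)^k`. -/
theorem Pool.Agent.Results.MP_33747a_co.AllKLowerBound.result (n k : ℕ) (hn : 1 ≤ n)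
    (hkn : k ≤ n) :
    ∃ μ : ℝ, IsLeast (khaf k '' Psi n) μ ∧ (n.choose k : ℝ) / (3 * Real.exp 1) ^ k ≤ μ ∧
      khaf k (J n) / (3 * Real.exp 1) ^ k ≤ μ ∧ μ ≤ khaf k (J n) := by
  have h2 := Pool.Agent.Y266.Haf.exists_least n k
  obtain ⟨B, hB, h3⟩ := h2.1
  have h4 := Pool.Agent.Y266.Haf.all_k hn hkn hB
  rw [h3] at h4
  refine ⟨_, h2, h4, le_trans ?_ h4, h2.2 ⟨J n, Pool.Agent.H32R2.KH.J_mem n, rfl⟩⟩
  have h5 := Pool.Agent.Y266.Haf.J_le_choose hn hkn
  gcongr
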